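import Pool.Agent.Lib.MP_f9aece_nt_j4.Stmts

/-!
Module J of JointFour: the sum over the sets of groups of the energies of `DF f N * Bt`,
from the window lemma `FW` and the block energies.
-/

set_option autoImplicit false

namespace Pool.Agent.Lib.J4.H87

open Pool.Agent.Lib.MP_f9aece_nt (DP pair BK K1 ev ev1 evh PP VV Smo expo EE mom VV_nonneg
  cone_PP_pow)

/-! ### supports -/

lemma expo_supp {S : Finset ℕ} (hS : ∀ p ∈ S, p.Prime) (c : ℝ) (K : ℕ) (n : ℕ)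
    (h : (expo c K S).coeff n ≠ 0) : n ∈ Smo (S : Set ℕ) := by
  unfold expo at h
  rw [MonoidAlgebra.coeff_sum, Finsupp.finsetSum_apply] at h
  obtain ⟨r, hr, h1⟩ := Finset.exists_ne_zero_of_sum_ne_zero h
  rw [MonoidAlgebra.coeff_smul, Finsupp.smul_apply, smul_eq_mul] at h1
  exact ((cone_PP_pow hS r n).2 (right_ne_zero_of_mul h1)).1

lemma PP_pow_supp {S : Finset ℕ} (hS : ∀ p ∈ S, p.Prime) (r : ℕ) (n : ℕ)
    (h : ((PP S) ^ r).coeff n ≠ 0) : n ∈ Smo (S : Set ℕ) := ((cone_PP_pow hS r n).2 h).1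

/-! ### local factors -/

lemma Dp_pos {p : ℕ} (hp : 2 ≤ p) : 0 < Dp p := by
  unfold Dp
  have h2 : (2 : ℝ) ≤ p := by exact_mod_cast hp
  have h1 : (p : ℝ)⁻¹ ≤ 2⁻¹ := inv_anti₀ (by norm_num) h2
  have h3 : 0 < 1 - (p : ℝ)⁻¹ := by
    have : (2 : ℝ)⁻¹ < 1 := by norm_num
    linarith
  positivity

lemma DS_pos {S : Finset ℕ} (h : ∀ p ∈ S, 2 ≤ p) : 0 < DS S :=
  Finset.prod_pos fun p hp => Dp_pos (h p hp)

lemma V2_nonneg (S : Finset ℕ) : 0 ≤ V2 S := Finset.sum_nonneg fun p _ => by positivity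

lemma V2_le {p0 : ℕ} (hp0 : 1 ≤ p0) {S : Finset ℕ} (h : ∀ p ∈ S, p0 < p) : V2 S ≤ 1 / p0 := by
  classical
  unfold V2
  have h0 : (0 : ℝ) ≤ 1 / p0 := by positivity
  rcases S.eq_empty_or_nonempty with rfl | hne
  · simp
  · have h1 : S ⊆ Finset.Ioc p0 (S.max' hne) := by
      intro p hp
      rw [Finset.mem_Ioc]
      exact ⟨h p hp, S.le_max' p hp⟩
    have h2 : p0 ≤ S.max' hne := (h _ (S.max'_mem hne)).le
    calc ∑ p ∈ S, ((p : ℝ)⁻¹) ^ 2 = ∑ p ∈ S, ((p : ℝ) ^ 2)⁻¹ := by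
          refine Finset.sum_congr rfl fun p _ => by rw [inv_pow]
      _ ≤ ∑ p ∈ Finset.Ioc p0 (S.max' hne), ((p : ℝ) ^ 2)⁻¹ :=
          Finset.sum_le_sum_of_subset_of_nonneg h1 fun p _ _ => by positivity
      _ ≤ (p0 : ℝ)⁻¹ - ((S.max' hne : ℕ) : ℝ)⁻¹ := sum_Ioc_inv_sq_le_sub (by omega) h2
      _ ≤ 1 / p0 := by
          rw [one_div]
          have : (0 : ℝ) ≤ ((S.max' hne : ℕ) : ℝ)⁻¹ := by positivity
          linarith

lemma mem_Sg {v p0 : ℕ} {Y : ℝ} {g p : ℕ} (h : p ∈ Sg v p0 Y g) :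
    p.Prime ∧ p0 < p ∧ Real.log p ≤ Yg v Y g := by
  unfold Sg at h
  rw [Finset.mem_filter] at h
  exact ⟨h.2.1, h.2.2.1, h.2.2.2.2⟩

lemma mem_SU {v p0 : ℕ} {Y : ℝ} {i J p : ℕ} (h : p ∈ SU v p0 Y i J) :
    ∃ g ∈ Finset.Ico i J, p ∈ Sg v p0 Y g := by
  unfold SU at h
  rw [Finset.mem_biUnion] at h
  exact h

lemma DS_SU (hD : SgDisj) (v p0 : ℕ) {Y : ℝ} (hY : 0 ≤ Y) (i J : ℕ) :
    DS (SU v p0 Y i J) = ∏ g ∈ Finset.Ico i J, DS (Sg v p0 Y g) := by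
  unfold DS SU
  rw [Finset.prod_biUnion]
  intro a _ b _ hab
  exact hD v p0 Y hY a b hab

lemma sum_V2_le (hD : SgDisj) (v : ℕ) {p0 : ℕ} (hp0 : 1 ≤ p0) {Y : ℝ} (hY : 0 ≤ Y) (i J : ℕ) :
    ∑ g ∈ Finset.Ico i J, V2 (Sg v p0 Y g) ≤ 1 / p0 := by
  have h1 : ∑ g ∈ Finset.Ico i J, V2 (Sg v p0 Y g) = V2 (SU v p0 Y i J) := by
    unfold V2 SU
    rw [Finset.sum_biUnion]
    intro a _ b _ hab
    exact hD v p0 Y hY a b hab
  rw [h1]
  refine V2_le hp0 fun p hp => ?_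
  obtain ⟨g, _, hg⟩ := mem_SU hp
  exact (mem_Sg hg).2.1

/-! ### scales -/

lemma Yg_pos (v : ℕ) {Y : ℝ} (hY : 0 < Y) (g : ℕ) : 0 < Yg v Y g := by
  unfold Yg
  positivity

lemma Yg_ratio (v : ℕ) (Y : ℝ) (i h : ℕ) :
    Yg v Y h = Yg v Y i * Real.exp (-((v : ℝ) * (((h : ℝ) * (h + 1) - i * (i + 1)) / 2))) := by
  unfold Yg
  rw [mul_assoc Y, ← Real.exp_add]
  congr 2
  ring

lemma beta_ge {i h : ℕ} (hih : i ≤ h) :
    (h : ℝ) - i ≤ ((h : ℝ) * (h + 1) - i * (i + 1)) / 2 := by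
  rcases hih.eq_or_lt with rfl | hlt
  · simp
  · have h1 : (i : ℝ) + 1 ≤ h := by exact_mod_cast hlt
    have h2 : (0 : ℝ) ≤ i := Nat.cast_nonneg i
    nlinarith [mul_nonneg (by linarith : (0 : ℝ) ≤ (h : ℝ) - i) (by linarith : (0 : ℝ) ≤ h + i - 1)]

lemma Yg_anti (v : ℕ) {Y : ℝ} (hY : 0 < Y) {i h : ℕ} (hih : i ≤ h) : Yg v Y h ≤ Yg v Y i := by
  rw [Yg_ratio v Y i h]
  have h1 := beta_ge hih
  have h2 : (0 : ℝ) ≤ (h : ℝ) - i := by
    have : (i : ℝ) ≤ h := by exact_mod_cast hih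
    linarith
  have h3 : Real.exp (-((v : ℝ) * (((h : ℝ) * (h + 1) - i * (i + 1)) / 2))) ≤ 1 := by
    rw [Real.exp_le_one_iff]
    have : (0 : ℝ) ≤ (v : ℝ) * (((h : ℝ) * (h + 1) - i * (i + 1)) / 2) :=
      mul_nonneg (Nat.cast_nonneg v) (h2.trans h1)
    linarith
  exact mul_le_of_le_one_right (Yg_pos v hY i).le h3

lemma rg_cast (v g : ℕ) : (rg v g : ℝ) = v * (g + 1) := by
  unfold rg
  push_cast
  ring

lemma sum_rg_le (v : ℕ) {c C : ℝ} (hc : 0 ≤ c) (hC : 0 ≤ C) {i h : ℕ} (hih : i ≤ h) :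
    ∑ g ∈ Finset.Ico i (h + 1), (16 * c * rg v g + C)
      ≤ 16 * c * rg v i + C + (32 * c * v + C) * (((h : ℝ) * (h + 1) - i * (i + 1)) / 2) := by
  induction h, hih using Nat.le_induction with
  | base => simp
  | succ h hih ih =>
    rw [Finset.sum_Ico_succ_top (by omega)]
    have h1 : (0 : ℝ) ≤ h := Nat.cast_nonneg h
    have h2 : 0 ≤ c * v := mul_nonneg hc (Nat.cast_nonneg v)
    rw [rg_cast v (h + 1)]
    push_cast
    nlinarith [mul_nonneg h2 h1, mul_nonneg hC h1]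

lemma sum_half_le (i J : ℕ) : ∑ h ∈ Finset.Ico i J, Real.exp (-((h : ℝ) - i)) ≤ 2 := by
  rw [Finset.sum_Ico_eq_sum_range]
  refine le_trans ?_ (sum_geometric_two_le (J - i))
  refine Finset.sum_le_sum fun k _ => ?_
  push_cast
  have h1 : -((i : ℝ) + k - i) = (k : ℝ) * (-1) := by ring
  rw [h1, Real.exp_nat_mul]
  have h2 : Real.exp (-1) ≤ 1 / 2 := by
    rw [Real.exp_neg, one_div]
    have := Real.add_one_le_exp 1
    exact inv_anti₀ (by norm_num) (by linarith)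
  exact pow_le_pow_left₀ (Real.exp_pos _).le h2 k

lemma sum_Yg_exp_le (v : ℕ) {Y : ℝ} (hY : 0 < Y) {c C : ℝ} (hc : 0 ≤ c) (hc1 : c ≤ 1 / 1000)
    (hC : 0 ≤ C) (hv : 2 * (C + 1) ≤ v) (i J : ℕ) :
    ∑ h ∈ Finset.Ico i J, Yg v Y h * Real.exp (∑ g ∈ Finset.Ico i (h + 1), (16 * c * rg v g + C))
      ≤ 2 * (Yg v Y i * Real.exp (16 * c * rg v i + C)) := by
  have h0 : 0 ≤ Yg v Y i * Real.exp (16 * c * rg v i + C) :=
    mul_nonneg (Yg_pos v hY i).le (Real.exp_pos _).le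
  have h1 : ∀ h ∈ Finset.Ico i J,
      Yg v Y h * Real.exp (∑ g ∈ Finset.Ico i (h + 1), (16 * c * rg v g + C))
      ≤ (Yg v Y i * Real.exp (16 * c * rg v i + C)) * Real.exp (-((h : ℝ) - i)) := by
    intro h hh
    rw [Finset.mem_Ico] at hh
    have h2 := sum_rg_le v hc hC hh.1
    have h3 := beta_ge hh.1
    have h4 : (0 : ℝ) ≤ (h : ℝ) - i := by
      have : (i : ℝ) ≤ h := by exact_mod_cast hh.1
      linarith
    rw [Yg_ratio v Y i h, mul_assoc, mul_assoc, ← Real.exp_add, ← Real.exp_add]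
    refine mul_le_mul_of_nonneg_left (Real.exp_le_exp.mpr ?_) (Yg_pos v hY i).le
    have hv0 : (0 : ℝ) ≤ v := Nat.cast_nonneg v
    set β := ((h : ℝ) * (h + 1) - i * (i + 1)) / 2 with hβ
    have hβ0 : 0 ≤ β := h4.trans h3
    have h5 : 32 * c * v ≤ v / 2 := by nlinarith
    nlinarith [mul_nonneg hβ0 (by linarith : (0 : ℝ) ≤ v - 32 * c * v - C - 1)]
  calc _ ≤ ∑ h ∈ Finset.Ico i J,
        (Yg v Y i * Real.exp (16 * c * rg v i + C)) * Real.exp (-((h : ℝ) - i)) :=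
        Finset.sum_le_sum h1
    _ = (Yg v Y i * Real.exp (16 * c * rg v i + C))
        * ∑ h ∈ Finset.Ico i J, Real.exp (-((h : ℝ) - i)) := by rw [Finset.mul_sum]
    _ ≤ (Yg v Y i * Real.exp (16 * c * rg v i + C)) * 2 :=
        mul_le_mul_of_nonneg_left (sum_half_le i J) h0
    _ = _ := by ring

lemma sum_Yg_le (v : ℕ) {Y : ℝ} (hY : 0 < Y) (hv : 2 ≤ v) (i J : ℕ) :
    ∑ h ∈ Finset.Ico i J, Yg v Y h ≤ 2 * Yg v Y i := by
  have hv2 : (2 : ℝ) ≤ v := by exact_mod_cast hv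
  have := sum_Yg_exp_le v hY (le_refl (0 : ℝ)) (by norm_num) (le_refl (0 : ℝ)) (by linarith) i J
  simpa using this

lemma sum_exp_rg_le {v : ℕ} (hv : 2 ≤ v) (i J : ℕ) :
    ∑ g ∈ Finset.Ico i J, Real.exp (-(rg v g : ℝ) / 2) ≤ 2 * Real.exp (-(v : ℝ) / 2) := by
  have hv2 : (2 : ℝ) ≤ v := by exact_mod_cast hv
  calc ∑ g ∈ Finset.Ico i J, Real.exp (-(rg v g : ℝ) / 2)
      ≤ ∑ g ∈ Finset.Ico i J, Real.exp (-(v : ℝ) / 2) * Real.exp (-((g : ℝ) - i)) := by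
        refine Finset.sum_le_sum fun g _ => ?_
        rw [← Real.exp_add]
        refine Real.exp_le_exp.mpr ?_
        rw [rg_cast]
        have h1 : (0 : ℝ) ≤ g := Nat.cast_nonneg g
        have h2 : (0 : ℝ) ≤ i := Nat.cast_nonneg i
        nlinarith
    _ = Real.exp (-(v : ℝ) / 2) * ∑ g ∈ Finset.Ico i J, Real.exp (-((g : ℝ) - i)) := by
        rw [Finset.mul_sum]
    _ ≤ Real.exp (-(v : ℝ) / 2) * 2 :=
        mul_le_mul_of_nonneg_left (sum_half_le i J) (Real.exp_pos _).le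
    _ = _ := by ring

/-! ### sums over the sets of groups -/

/-- the inverse of the weight of a group -/
noncomputable def Zg (v g : ℕ) : ℝ :=
  (1000 * (rg v g : ℝ)) ^ (2 * (100000 * rg v g)) / Real.exp (8 * (1000 * rg v g))

lemma rg_pos {v : ℕ} (hv : 1 ≤ v) (g : ℕ) : 1 ≤ rg v g := by
  unfold rg
  exact Nat.mul_pos hv (Nat.succ_pos g)

lemma Zg_pos {v : ℕ} (hv : 1 ≤ v) (g : ℕ) : 0 < Zg v g := by
  unfold Zg
  have : (1 : ℝ) ≤ rg v g := by exact_mod_cast rg_pos hv g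
  positivity

lemma Wt_eq (v : ℕ) (t : Finset ℕ) : Wt v t = ∏ g ∈ t, (Zg v g)⁻¹ := by
  unfold Wt Zg Rg Mg
  refine Finset.prod_congr rfl fun g _ => ?_
  rw [inv_div]

lemma Wt_nonneg (v : ℕ) (t : Finset ℕ) : 0 ≤ Wt v t := by
  unfold Wt Rg
  exact Finset.prod_nonneg fun g _ => by positivity

lemma sum_Wt {v : ℕ} (hv : 1 ≤ v) (U : Finset ℕ) (x y : ℕ → ℝ) :
    ∑ s ∈ U.powerset, Wt v s * ∏ g ∈ U, (if g ∈ s then x g * Zg v g else y g)
      = ∏ g ∈ U, (x g + y g) := by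
  classical
  rw [Finset.prod_add]
  refine Finset.sum_congr rfl fun s hs => ?_
  rw [Finset.mem_powerset] at hs
  rw [← Finset.prod_sdiff hs, Wt_eq]
  have h1 : ∏ g ∈ U \ s, (if g ∈ s then x g * Zg v g else y g) = ∏ g ∈ U \ s, y g := by
    refine Finset.prod_congr rfl fun g hg => ?_
    rw [Finset.mem_sdiff] at hg
    rw [if_neg hg.2]
  have h2 : ∏ g ∈ s, (if g ∈ s then x g * Zg v g else y g) = ∏ g ∈ s, x g * Zg v g := by
    refine Finset.prod_congr rfl fun g hg => ?_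
    rw [if_pos hg]
  rw [h1, h2]
  have h3 : (∏ g ∈ s, (Zg v g)⁻¹) * (∏ g ∈ s, x g * Zg v g) = ∏ g ∈ s, x g := by
    rw [← Finset.prod_mul_distrib]
    refine Finset.prod_congr rfl fun g _ => ?_
    have := (Zg_pos hv g).ne'
    field_simp
  calc (∏ g ∈ s, (Zg v g)⁻¹) * ((∏ g ∈ U \ s, y g) * ∏ g ∈ s, x g * Zg v g)
      = ((∏ g ∈ s, (Zg v g)⁻¹) * (∏ g ∈ s, x g * Zg v g)) * ∏ g ∈ U \ s, y g := by ring
    _ = _ := by rw [h3]

/-- the block polynomial of a group -/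
noncomputable def bl (c : ℝ) (v p0 : ℕ) (Y : ℝ) (s : Finset ℕ) (g : ℕ) : DP :=
  open Classical in
  if g ∈ s then PP (Sg v p0 Y g) ^ (100000 * rg v g) else expo c (50000 * rg v g) (Sg v p0 Y g)

lemma prod_bl (c : ℝ) (v p0 : ℕ) (Y : ℝ) {i J : ℕ} {s : Finset ℕ} (hs : s ⊆ Finset.Ico i J) :
    ∏ g ∈ Finset.Ico i J, bl c v p0 Y s g = Bt c v p0 Y i J s := by
  classical
  unfold Bt
  rw [← Finset.prod_sdiff hs]
  congr 1
  · refine Finset.prod_congr rfl fun g hg => ?_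
    rw [Finset.mem_sdiff] at hg
    unfold bl Eg Kg
    rw [if_neg hg.2]
  · refine Finset.prod_congr rfl fun g hg => ?_
    unfold bl Pg Mg
    rw [if_pos hg]

lemma bl_supp (c : ℝ) (v p0 : ℕ) (Y : ℝ) (s : Finset ℕ) (g n : ℕ)
    (h : (bl c v p0 Y s g).coeff n ≠ 0) : n ∈ Smo (Sg v p0 Y g : Set ℕ) := by
  have hS : ∀ p ∈ Sg v p0 Y g, p.Prime := fun p hp => (mem_Sg hp).1
  unfold bl at h
  split_ifs at h with h1
  · exact PP_pow_supp hS _ n h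
  · exact expo_supp hS _ _ n h

end Pool.Agent.Lib.J4.H87
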