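import Pool.Agent.Lib.MP_f9aece_nt_h87.Core

/-!
Module J of JointFour: the core inequality, with explicit rough sums.
-/

set_option autoImplicit false

namespace Pool.Agent.Lib.J4.H87

open Pool.Agent.Lib.MP_f9aece_nt (DP pair BK K1 ev ev1 evh PP VV Smo expo EE mom VV_nonneg
  cone_PP_pow)

lemma expo_lower {r c V : ℝ} (hV0 : 0 ≤ V) (hV : V ≤ 2 * r) :
    -(8 * |c| * r) ≤ (c ^ 2 + 4 * c) * V := by
  have h1 : -(4 * |c|) ≤ c ^ 2 + 4 * c := by
    have := neg_abs_le c
    nlinarith [sq_nonneg c]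
  have h2 : 0 ≤ 4 * |c| := by positivity
  nlinarith [mul_nonneg h2 hV0, mul_nonneg (by linarith : 0 ≤ c ^ 2 + 4 * c + 4 * |c|) hV0,
    mul_nonneg h2 (by linarith : 0 ≤ 2 * r - V)]

lemma q_le {r c V W : ℝ} (hr : 0 ≤ r) (hc : |c| ≤ 1 / 1000) (hV0 : 0 ≤ V) (hV : V ≤ 2 * r)
    (hW : 0 ≤ W) :
    Real.exp (-r) + Real.exp ((c ^ 2 + 4 * c) * V + W + Real.exp (-r))
      ≤ Real.exp ((c ^ 2 + 4 * c) * V + W + 2 * Real.exp (-r / 2)) := by
  have h1 := expo_lower (c := c) hV0 hV
  have h2 : 8 * |c| * r ≤ r / 2 := by nlinarith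
  set A := (c ^ 2 + 4 * c) * V + W + Real.exp (-r) with hA
  have h3 : Real.exp (-r) ≤ Real.exp (-r / 2) * Real.exp A := by
    rw [← Real.exp_add]
    refine Real.exp_le_exp.mpr ?_
    have := (Real.exp_pos (-r)).le
    linarith
  have h4 : 1 + Real.exp (-r / 2) ≤ Real.exp (Real.exp (-r / 2)) := by
    have := Real.add_one_le_exp (Real.exp (-r / 2))
    linarith
  calc Real.exp (-r) + Real.exp A ≤ (1 + Real.exp (-r / 2)) * Real.exp A := by linarith
    _ ≤ Real.exp (Real.exp (-r / 2)) * Real.exp A :=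
        mul_le_mul_of_nonneg_right h4 (Real.exp_pos _).le
    _ = Real.exp (Real.exp (-r / 2) + A) := by rw [← Real.exp_add]
    _ ≤ _ := by
        refine Real.exp_le_exp.mpr ?_
        have : Real.exp (-r) ≤ Real.exp (-r / 2) := Real.exp_le_exp.mpr (by linarith)
        linarith

lemma a_le {r c V C2 C3 : ℝ} (hr : 0 ≤ r) (hV0 : 0 ≤ V) (hV : V ≤ 2 * r)
    (hC2 : 0 ≤ C2) (hC3 : 0 ≤ C3) :
    Real.exp (C3 - r) + Real.exp ((c ^ 2 + 4 * |c|) * V + C2)
      ≤ Real.exp ((c ^ 2 + 4 * c) * V + (16 * |c| * r + (C2 + C3 + 1))) := by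
  have h1 := expo_lower (c := c) hV0 hV
  have h0 : 0 ≤ |c| := abs_nonneg c
  have hcr : 0 ≤ |c| * r := mul_nonneg h0 hr
  set X := (c ^ 2 + 4 * c) * V + (16 * |c| * r + (C2 + C3)) with hX
  have h2 : Real.exp (C3 - r) ≤ Real.exp X := Real.exp_le_exp.mpr (by nlinarith)
  have h3 : Real.exp ((c ^ 2 + 4 * |c|) * V + C2) ≤ Real.exp X := by
    refine Real.exp_le_exp.mpr ?_
    have h5 : 4 * |c| - 4 * c ≤ 8 * |c| := by
      have := neg_abs_le c
      linarith
    have h6 : (4 * |c| - 4 * c) * V ≤ 8 * |c| * V := mul_le_mul_of_nonneg_right h5 hV0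
    have h7 : 8 * |c| * V ≤ 8 * |c| * (2 * r) := mul_le_mul_of_nonneg_left hV (by positivity)
    rw [hX]
    nlinarith
  have h4 : (2 : ℝ) ≤ Real.exp 1 := by
    have := Real.add_one_le_exp 1
    linarith
  calc Real.exp (C3 - r) + Real.exp ((c ^ 2 + 4 * |c|) * V + C2) ≤ 2 * Real.exp X := by linarith
    _ ≤ Real.exp 1 * Real.exp X := mul_le_mul_of_nonneg_right h4 (Real.exp_pos _).le
    _ = Real.exp (1 + X) := by rw [← Real.exp_add]
    _ = _ := by rw [hX]; congr 1; ring

/-- sum over the subsets of the mixed products -/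
lemma mixed_le {v p0 : ℕ} {Y c C1 C2 C3 : ℝ} (hv : 2 ≤ v) (hp0 : 1 ≤ p0) (hY : 0 < Y)
    (hD : SgDisj) (hV : ∀ g, VV (Sg v p0 Y g) ≤ 2 * rg v g)
    (hc : |c| ≤ 1 / 1000) (hC1 : 0 ≤ C1) (hC2 : 0 ≤ C2) (hC3 : 0 ≤ C3) {i J k : ℕ} (hk : k ≤ J) :
    ∏ g ∈ Finset.Ico i J,
      ((if g < k then Real.exp (C3 - rg v g) else Real.exp (-(rg v g : ℝ)))
      + (if g < k then Real.exp ((c ^ 2 + 4 * |c|) * VV (Sg v p0 Y g) + C2)
        else Real.exp ((c ^ 2 + 4 * c) * VV (Sg v p0 Y g) + C1 * V2 (Sg v p0 Y g)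
          + Real.exp (-(rg v g : ℝ)))))
      ≤ Real.exp ((c ^ 2 + 4 * c) * Vs v p0 Y i J) * Real.exp (C1 / p0 + 4 * Real.exp (-(v : ℝ) / 2))
        * Real.exp (∑ g ∈ Finset.Ico i k, (16 * |c| * rg v g + (C2 + C3 + 1))) := by
  classical
  have hr : ∀ g, (0 : ℝ) ≤ rg v g := fun g => Nat.cast_nonneg _
  have h1 : ∀ g ∈ Finset.Ico i J,
      ((if g < k then Real.exp (C3 - rg v g) else Real.exp (-(rg v g : ℝ)))
      + (if g < k then Real.exp ((c ^ 2 + 4 * |c|) * VV (Sg v p0 Y g) + C2)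
        else Real.exp ((c ^ 2 + 4 * c) * VV (Sg v p0 Y g) + C1 * V2 (Sg v p0 Y g)
          + Real.exp (-(rg v g : ℝ)))))
      ≤ Real.exp (((c ^ 2 + 4 * c) * VV (Sg v p0 Y g) + C1 * V2 (Sg v p0 Y g)
          + 2 * Real.exp (-(rg v g : ℝ) / 2))
          + if g < k then (16 * |c| * rg v g + (C2 + C3 + 1)) else 0) := by
    intro g _
    have h2 : 0 ≤ C1 * V2 (Sg v p0 Y g) := mul_nonneg hC1 (V2_nonneg _)
    split_ifs with h3
    · refine (a_le (hr g) (VV_nonneg _) (hV g) hC2 hC3).trans (Real.exp_le_exp.mpr ?_)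
      have := (Real.exp_pos (-(rg v g : ℝ) / 2)).le
      linarith
    · rw [add_zero]
      exact q_le (hr g) hc (VV_nonneg _) (hV g) h2
  refine (Finset.prod_le_prod (fun g _ => ?_) h1).trans ?_
  · split_ifs <;> positivity
  · rw [← Real.exp_sum, ← Real.exp_add, ← Real.exp_add]
    refine Real.exp_le_exp.mpr ?_
    rw [Finset.sum_add_distrib, Finset.sum_add_distrib, Finset.sum_add_distrib, ← Finset.mul_sum,
      ← Finset.mul_sum, ← Finset.mul_sum, ← Finset.sum_filter]
    have h3 : (Finset.Ico i J).filter (fun g => g < k) = Finset.Ico i k := by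
      ext g
      simp only [Finset.mem_filter, Finset.mem_Ico]
      omega
    rw [h3]
    have h4 := sum_V2_le hD v hp0 hY.le i J
    have h5 := sum_exp_rg_le hv i J
    have h6 : C1 * ∑ g ∈ Finset.Ico i J, V2 (Sg v p0 Y g) ≤ C1 * (1 / p0) :=
      mul_le_mul_of_nonneg_left h4 hC1
    have h7 : C1 * (1 / (p0 : ℝ)) = C1 / p0 := by ring
    unfold Vs
    linarith

theorem core (hFW : FW) (hE : BeExpo) (hP : BePow) (hEA : BeExpoAbs) (hPA : BePowAbs)
    (hV : VVSg) (hD : SgDisj) :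
    ∃ (C : ℝ) (v0 : ℕ), 0 ≤ C ∧ ∀ v p0 : ℕ, v0 ≤ v → 1000 ≤ p0 → ∀ (Y : ℝ) (i J : ℕ), 0 < Y →
    ∀ (c A0 lm X1 X2 η : ℝ) (f : ℝ → ℝ), |c| ≤ 1 / 1000 → 0 ≤ A0 → 0 < lm → 0 < η →
    (∀ x, |f x| ≤ A0) → (∀ x y, |f x - f y| ≤ A0 / lm * |x - y|) →
    (∀ x, X2 ≤ x → f x = 0) → (∀ x, x ≤ X1 → f x = 0) → ∀ N : ℕ, X2 ≤ Real.log (N + 1) →
    ∀ R1 Rw : ℝ,
    (∀ s : Finset ℕ, (∀ r ∈ s, Rough (SU v p0 Y i J) r) →
      (∑ r ∈ s, dv r ^ 2 * f (Real.log r) ^ 2 / (r : ℝ)) * DS (SU v p0 Y i J) ≤ R1) →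
    (∀ s : Finset ℕ, (∀ r ∈ s, Rough (SU v p0 Y i J) r ∧ Real.log r ≤ X2) →
      (∑ r ∈ s, dv r ^ 2 / (r : ℝ)
        * Real.exp (-(2 * (1 / (6 * Yg v Y i)) * max (X1 - Real.log r) 0)))
        * DS (SU v p0 Y i J) ≤ Rw) →
    ∑ s ∈ (Finset.Ico i J).powerset, Wt v s * En (DF f N * Bt c v p0 Y i J s)
      ≤ Real.exp ((c ^ 2 + 4 * c) * Vs v p0 Y i J)
        * ((1 + η) * R1 * Real.exp (C / p0 + C * Real.exp (-(v : ℝ) / 2))
          + (1 + 1 / η) * (Rw * A0 ^ 2 * C * (if i < J then Yg v Y i / lm else 0) ^ 2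
            * Real.exp (16 * |c| * rg v i))) := by
  classical
  obtain ⟨C1, hC1, hE⟩ := hE
  obtain ⟨C2, hC2, hEA⟩ := hEA
  obtain ⟨C3, hC3, hPA⟩ := hPA
  obtain ⟨v1, hV⟩ := hV
  set C4 := C2 + C3 + 1 with hC4
  refine ⟨C1 + 4 + 144 * Real.exp (C1 + 4 + C4), max (max v1 2) ⌈2 * (C4 + 1)⌉₊, by positivity,
    fun v p0 hv hp0 Y i J hY c A0 lm X1 X2 η f hc hA0 hlm hη hf0 hf1 hf2 hf3 N hN R1 Rw
      hR1 hRw => ?_⟩
  have hv1 : v1 ≤ v := le_trans (le_trans (le_max_left _ _) (le_max_left _ _)) hv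
  have hv2 : 2 ≤ v := le_trans (le_trans (le_max_right _ _) (le_max_left _ _)) hv
  have hv3 : 2 * (C4 + 1) ≤ v :=
    le_trans (Nat.le_ceil _) (by exact_mod_cast le_trans (le_max_right _ _) hv)
  have hv01 : 1 ≤ v := by omega
  have hC40 : 0 ≤ C4 := by positivity
  have hVV : ∀ g, VV (Sg v p0 Y g) ≤ 2 * rg v g := fun g => hV v hv1 p0 Y g hY
  have hSp : ∀ g, ∀ p ∈ Sg v p0 Y g, p.Prime := fun g p hp => (mem_Sg hp).1
  have hS1 : ∀ g, ∀ p ∈ Sg v p0 Y g, p.Prime ∧ 1000 ≤ p := fun g p hp =>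
    ⟨(mem_Sg hp).1, hp0.trans (mem_Sg hp).2.1.le⟩
  have hS2 : ∀ g, ∀ p ∈ Sg v p0 Y g, p.Prime ∧ 1000 ≤ p ∧ Real.log p ≤ Yg v Y g := fun g p hp =>
    ⟨(mem_Sg hp).1, hp0.trans (mem_Sg hp).2.1.le, (mem_Sg hp).2.2⟩
  have hDpos : ∀ g, 0 < DS (Sg v p0 Y g) := fun g => DS_pos fun p hp => (hSp g p hp).two_le
  have hPr := DS_SU hD v p0 hY.le i J
  set P := DS (SU v p0 Y i J) with hPdef
  have hPpos : 0 < P := by
    rw [hPr]
    exact Finset.prod_pos fun g _ => hDpos g
  have hR10 : 0 ≤ R1 := by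
    have := hR1 ∅ (by simp)
    simpa using this
  have hRw0 : 0 ≤ Rw := by
    have := hRw ∅ (by simp)
    simpa using this
  have hYi := Yg_pos v hY i
  have hrg1 : ∀ g, 1 ≤ rg v g := fun g => rg_pos hv01 g
  -- local factors
  set xq : ℕ → ℝ := fun g => Real.exp (-(rg v g : ℝ)) with hxq
  set yq : ℕ → ℝ := fun g => Real.exp ((c ^ 2 + 4 * c) * VV (Sg v p0 Y g)
    + C1 * V2 (Sg v p0 Y g) + Real.exp (-(rg v g : ℝ))) with hyq
  set xa : ℕ → ℝ := fun g => Real.exp (C3 - rg v g) with hxa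
  set ya : ℕ → ℝ := fun g => Real.exp ((c ^ 2 + 4 * |c|) * VV (Sg v p0 Y g) + C2) with hya
  have hc1 : |c| ≤ 1 := hc.trans (by norm_num)
  set U := Finset.Ico i J with hU
  -- the window lemma
  have key : ∀ s ∈ U.powerset, En (DF f N * Bt c v p0 Y i J s)
      ≤ (1 + η) * (R1 * ∏ g ∈ U, (if g ∈ s then xq g * Zg v g else yq g))
        + (1 + 1 / η) * (Rw * A0 ^ 2 * (∑ h ∈ U, 6 * Yg v Y h / lm)
          * ∑ h ∈ U, 6 * Yg v Y h / lm
            * ∏ g ∈ U, (if g ∈ s then (if g < h + 1 then xa g else xq g) * Zg v g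
              else (if g < h + 1 then ya g else yq g))) := by
    intro s hs
    rw [Finset.mem_powerset] at hs
    have hZ : ∀ g, 0 < Zg v g := fun g => Zg_pos hv01 g
    have h1 := hFW i J (Sg v p0 Y) hSp (fun g h hgh => hD v p0 Y hY.le g h hgh)
      (bl c v p0 Y s) (fun g n hn => bl_supp c v p0 Y s g n hn) (fun g => 6 * Yg v Y g)
      (fun g => by have := Yg_pos v hY g; positivity)
      (fun g p hp => by
        have h2 := (mem_Sg hp).2.2
        have h3 := Yg_pos v hY g
        linarith)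
      f A0 lm X1 X2 (1 / (6 * Yg v Y i)) η (by positivity) hlm hA0 hη hf0 hf1 hf2 hf3
      (fun g => DS (Sg v p0 Y g) * (if g ∈ s then xq g * Zg v g else yq g))
      (fun g => DS (Sg v p0 Y g) * (if g ∈ s then xa g * Zg v g else ya g))
      (fun g => by
        have := hDpos g
        have := hZ g
        simp only [hxq, hyq]
        split_ifs <;> positivity)
      (fun g => by
        have := hDpos g
        have := hZ g
        simp only [hxa, hya]
        split_ifs <;> positivity)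
      (fun g _ => by
        by_cases hg : g ∈ s
        · have h2 := hP (Sg v p0 Y g) (rg v g) (hS1 g) (hrg1 g) (hVV g)
          simp only [if_pos hg, bl, hxq, Zg]
          rw [← mul_assoc]
          exact h2
        · have h2 := hE (Sg v p0 Y g) (rg v g) c (hS1 g) (hrg1 g) (hVV g) hc1
          simp only [if_neg hg, bl, hyq]
          exact h2)
      (fun g hg1 => by
        have hYg := Yg_pos v hY g
        have hle : Yg v Y g ≤ Yg v Y i := Yg_anti v hY (Finset.mem_Ico.mp hg1).1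
        have h4 : (1 / (6 * Yg v Y i) + 1 / (6 * Yg v Y g)) * Yg v Y g ≤ 1 / 3 := by
          have h5 : Yg v Y g / Yg v Y i ≤ 1 := (div_le_one hYi).mpr hle
          have h6 : (1 / (6 * Yg v Y i) + 1 / (6 * Yg v Y g)) * Yg v Y g
              = (Yg v Y g / Yg v Y i) / 6 + 1 / 6 := by
            field_simp
          rw [h6]
          linarith
        have h5 : 0 ≤ 1 / (6 * Yg v Y i) + 1 / (6 * Yg v Y g) := by positivity
        by_cases hg : g ∈ s
        · have h2 := hPA (Sg v p0 Y g) (rg v g) _ (Yg v Y g) (hS2 g) (hrg1 g) (hVV g) h5 h4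
          simp only [if_pos hg, bl, hxa, Zg]
          rw [← mul_assoc]
          exact h2
        · have h2 := hEA (Sg v p0 Y g) (rg v g) c _ (Yg v Y g) (hS2 g) (hrg1 g) (hVV g) hc1 h5 h4
          simp only [if_neg hg, bl, hya]
          exact h2)
      N hN (R1 / P) (Rw / P)
      (fun t ht => by
        rw [le_div_iff₀ hPpos]
        exact hR1 t ht)
      (fun t ht => by
        rw [le_div_iff₀ hPpos]
        exact hRw t ht)
    rw [prod_bl c v p0 Y hs] at h1
    refine h1.trans (le_of_eq ?_)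
    have e1 : R1 / P * ∏ g ∈ U, DS (Sg v p0 Y g) * (if g ∈ s then xq g * Zg v g else yq g)
        = R1 * ∏ g ∈ U, (if g ∈ s then xq g * Zg v g else yq g) := by
      rw [Finset.prod_mul_distrib, ← hPr]
      field_simp
    have e2 : ∀ h ∈ U, (∏ g ∈ Finset.Ico i (h + 1),
          DS (Sg v p0 Y g) * (if g ∈ s then xa g * Zg v g else ya g))
          * (∏ g ∈ Finset.Ico (h + 1) J,
            DS (Sg v p0 Y g) * (if g ∈ s then xq g * Zg v g else yq g))
        = P * ∏ g ∈ U, (if g ∈ s then (if g < h + 1 then xa g else xq g) * Zg v g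
              else (if g < h + 1 then ya g else yq g)) := by
      intro h hh
      rw [hU, Finset.mem_Ico] at hh
      rw [hPr, hU, ← Finset.prod_Ico_consecutive (fun g => DS (Sg v p0 Y g))
        (by omega : i ≤ h + 1) (by omega : h + 1 ≤ J),
        ← Finset.prod_Ico_consecutive (fun g => (if g ∈ s then
            (if g < h + 1 then xa g else xq g) * Zg v g else (if g < h + 1 then ya g else yq g)))
        (by omega : i ≤ h + 1) (by omega : h + 1 ≤ J), Finset.prod_mul_distrib,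
        Finset.prod_mul_distrib]
      have e3 : ∏ g ∈ Finset.Ico i (h + 1), (if g ∈ s then
            (if g < h + 1 then xa g else xq g) * Zg v g else (if g < h + 1 then ya g else yq g))
          = ∏ g ∈ Finset.Ico i (h + 1), (if g ∈ s then xa g * Zg v g else ya g) := by
        refine Finset.prod_congr rfl fun g hg => ?_
        rw [Finset.mem_Ico] at hg
        rw [if_pos hg.2, if_pos hg.2]
      have e4 : ∏ g ∈ Finset.Ico (h + 1) J, (if g ∈ s then
            (if g < h + 1 then xa g else xq g) * Zg v g else (if g < h + 1 then ya g else yq g))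
          = ∏ g ∈ Finset.Ico (h + 1) J, (if g ∈ s then xq g * Zg v g else yq g) := by
        refine Finset.prod_congr rfl fun g hg => ?_
        rw [Finset.mem_Ico] at hg
        have hn : ¬ g < h + 1 := by omega
        rw [if_neg hn, if_neg hn]
      rw [e3, e4]
      ring
    rw [e1]
    congr 2
    have e5 : ∑ h ∈ U, 6 * Yg v Y h / lm * ((∏ g ∈ Finset.Ico i (h + 1),
          DS (Sg v p0 Y g) * (if g ∈ s then xa g * Zg v g else ya g))
          * (∏ g ∈ Finset.Ico (h + 1) J,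
            DS (Sg v p0 Y g) * (if g ∈ s then xq g * Zg v g else yq g)))
        = P * ∑ h ∈ U, 6 * Yg v Y h / lm
            * ∏ g ∈ U, (if g ∈ s then (if g < h + 1 then xa g else xq g) * Zg v g
              else (if g < h + 1 then ya g else yq g)) := by
      rw [Finset.mul_sum]
      refine Finset.sum_congr rfl fun h hh => ?_
      rw [e2 h hh]
      ring
    rw [e5]
    have e6 : ∀ σ M : ℝ, Rw / P * A0 ^ 2 * σ * (P * M) = Rw * A0 ^ 2 * σ * M := by
      intro σ M
      field_simp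
    exact e6 _ _
  -- summation over the subsets
  have hQsum : ∑ s ∈ U.powerset, Wt v s * ∏ g ∈ U, (if g ∈ s then xq g * Zg v g else yq g)
      ≤ Real.exp ((c ^ 2 + 4 * c) * Vs v p0 Y i J)
        * Real.exp (C1 / p0 + 4 * Real.exp (-(v : ℝ) / 2)) := by
    rw [sum_Wt hv01]
    have h1 := mixed_le (i := i) (J := J) (k := 0) hv2 (by omega) hY hD hVV hc hC1 hC2 hC3
      (Nat.zero_le J)
    simpa using h1
  have hMsum : ∀ h ∈ U, ∑ s ∈ U.powerset, Wt v s * ∏ g ∈ U,
        (if g ∈ s then (if g < h + 1 then xa g else xq g) * Zg v g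
          else (if g < h + 1 then ya g else yq g))
      ≤ Real.exp ((c ^ 2 + 4 * c) * Vs v p0 Y i J)
        * Real.exp (C1 / p0 + 4 * Real.exp (-(v : ℝ) / 2))
        * Real.exp (∑ g ∈ Finset.Ico i (h + 1), (16 * |c| * rg v g + C4)) := by
    intro h hh
    rw [hU, Finset.mem_Ico] at hh
    rw [sum_Wt hv01 U (fun g => if g < h + 1 then xa g else xq g)
      (fun g => if g < h + 1 then ya g else yq g)]
    exact mixed_le (i := i) (J := J) (k := h + 1) hv2 (by omega) hY hD hVV hc hC1 hC2 hC3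
      (by omega)
  set E0 := Real.exp ((c ^ 2 + 4 * c) * Vs v p0 Y i J) with hE0
  set E1 := Real.exp (C1 / p0 + 4 * Real.exp (-(v : ℝ) / 2)) with hE1
  have hE0p : 0 < E0 := Real.exp_pos _
  have hE1p : 0 < E1 := Real.exp_pos _
  have hσ0 : 0 ≤ ∑ h ∈ U, 6 * Yg v Y h / lm :=
    Finset.sum_nonneg fun h _ => by have := Yg_pos v hY h; positivity
  set κ0 : ℝ := if i < J then Yg v Y i / lm else 0 with hκ0
  have hκ00 : 0 ≤ κ0 := by
    rw [hκ0]
    split_ifs <;> positivity
  have hσ : ∑ h ∈ U, 6 * Yg v Y h / lm ≤ 12 * κ0 := by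
    by_cases hiJ : i < J
    · rw [hκ0, if_pos hiJ]
      have h1 := sum_Yg_le v hY hv2 i J
      have h2 : ∑ h ∈ U, 6 * Yg v Y h / lm = 6 / lm * ∑ h ∈ U, Yg v Y h := by
        rw [Finset.mul_sum]
        exact Finset.sum_congr rfl fun h _ => by ring
      rw [h2]
      calc 6 / lm * ∑ h ∈ U, Yg v Y h ≤ 6 / lm * (2 * Yg v Y i) :=
            mul_le_mul_of_nonneg_left h1 (by positivity)
        _ = _ := by ring
    · rw [hκ0, if_neg hiJ, hU, Finset.Ico_eq_empty hiJ]
      simp
  have hτ : ∑ h ∈ U, 6 * Yg v Y h / lm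
      * Real.exp (∑ g ∈ Finset.Ico i (h + 1), (16 * |c| * rg v g + C4))
      ≤ 12 * κ0 * Real.exp (16 * |c| * rg v i + C4) := by
    by_cases hiJ : i < J
    · rw [hκ0, if_pos hiJ]
      have h1 := sum_Yg_exp_le v hY (abs_nonneg c) hc hC40 hv3 i J
      have h2 : ∑ h ∈ U, 6 * Yg v Y h / lm
          * Real.exp (∑ g ∈ Finset.Ico i (h + 1), (16 * |c| * rg v g + C4))
          = 6 / lm * ∑ h ∈ U, Yg v Y h
            * Real.exp (∑ g ∈ Finset.Ico i (h + 1), (16 * |c| * rg v g + C4)) := by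
        rw [Finset.mul_sum]
        exact Finset.sum_congr rfl fun h _ => by ring
      rw [h2]
      calc _ ≤ 6 / lm * (2 * (Yg v Y i * Real.exp (16 * |c| * rg v i + C4))) :=
            mul_le_mul_of_nonneg_left h1 (by positivity)
        _ = _ := by ring
    · rw [hκ0, if_neg hiJ, hU, Finset.Ico_eq_empty hiJ]
      simp
  have hη1 : 0 ≤ 1 + 1 / η := by positivity
  -- the sum
  calc ∑ s ∈ U.powerset, Wt v s * En (DF f N * Bt c v p0 Y i J s)
      ≤ ∑ s ∈ U.powerset, Wt v s * ((1 + η) * (R1 * ∏ g ∈ U,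
            (if g ∈ s then xq g * Zg v g else yq g))
        + (1 + 1 / η) * (Rw * A0 ^ 2 * (∑ h ∈ U, 6 * Yg v Y h / lm)
          * ∑ h ∈ U, 6 * Yg v Y h / lm
            * ∏ g ∈ U, (if g ∈ s then (if g < h + 1 then xa g else xq g) * Zg v g
              else (if g < h + 1 then ya g else yq g)))) :=
        Finset.sum_le_sum fun s hs => mul_le_mul_of_nonneg_left (key s hs) (Wt_nonneg v s)
    _ = (1 + η) * (R1 * ∑ s ∈ U.powerset, Wt v s * ∏ g ∈ U,
            (if g ∈ s then xq g * Zg v g else yq g))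
        + (1 + 1 / η) * (Rw * A0 ^ 2 * (∑ h ∈ U, 6 * Yg v Y h / lm)
          * ∑ h ∈ U, 6 * Yg v Y h / lm * ∑ s ∈ U.powerset, Wt v s
            * ∏ g ∈ U, (if g ∈ s then (if g < h + 1 then xa g else xq g) * Zg v g
              else (if g < h + 1 then ya g else yq g))) := by
        have e1 : ∑ h ∈ U, 6 * Yg v Y h / lm * ∑ s ∈ U.powerset, Wt v s
            * ∏ g ∈ U, (if g ∈ s then (if g < h + 1 then xa g else xq g) * Zg v g
              else (if g < h + 1 then ya g else yq g))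
            = ∑ s ∈ U.powerset, Wt v s * ∑ h ∈ U, 6 * Yg v Y h / lm
            * ∏ g ∈ U, (if g ∈ s then (if g < h + 1 then xa g else xq g) * Zg v g
              else (if g < h + 1 then ya g else yq g)) := by
          simp only [Finset.mul_sum]
          rw [Finset.sum_comm]
          refine Finset.sum_congr rfl fun s _ => Finset.sum_congr rfl fun h _ => by ring
        rw [e1]
        simp only [mul_add, Finset.sum_add_distrib, Finset.mul_sum (a := R1),
          Finset.mul_sum (a := 1 + η), Finset.mul_sum (s := U.powerset)]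
        congr 1
        · exact Finset.sum_congr rfl fun s _ => by ring
        · exact Finset.sum_congr rfl fun s _ => by ring
    _ ≤ (1 + η) * (R1 * (E0 * E1))
        + (1 + 1 / η) * (Rw * A0 ^ 2 * (12 * κ0)
          * (E0 * E1 * (12 * κ0 * Real.exp (16 * |c| * rg v i + C4)))) := by
        refine add_le_add ?_ ?_
        · refine mul_le_mul_of_nonneg_left ?_ (by positivity)
          exact mul_le_mul_of_nonneg_left hQsum hR10
        · refine mul_le_mul_of_nonneg_left ?_ hη1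
          have h1 : ∑ h ∈ U, 6 * Yg v Y h / lm * ∑ s ∈ U.powerset, Wt v s
              * ∏ g ∈ U, (if g ∈ s then (if g < h + 1 then xa g else xq g) * Zg v g
                else (if g < h + 1 then ya g else yq g))
              ≤ E0 * E1 * (12 * κ0 * Real.exp (16 * |c| * rg v i + C4)) := by
            calc _ ≤ ∑ h ∈ U, 6 * Yg v Y h / lm * (E0 * E1
                  * Real.exp (∑ g ∈ Finset.Ico i (h + 1), (16 * |c| * rg v g + C4))) := by
                  refine Finset.sum_le_sum fun h hh => ?_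
                  have := Yg_pos v hY h
                  exact mul_le_mul_of_nonneg_left (hMsum h hh) (by positivity)
              _ = E0 * E1 * ∑ h ∈ U, 6 * Yg v Y h / lm
                  * Real.exp (∑ g ∈ Finset.Ico i (h + 1), (16 * |c| * rg v g + C4)) := by
                  rw [Finset.mul_sum]
                  exact Finset.sum_congr rfl fun h _ => by ring
              _ ≤ _ := mul_le_mul_of_nonneg_left hτ (by positivity)
          have h2 : 0 ≤ Rw * A0 ^ 2 := by positivity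
          refine mul_le_mul (mul_le_mul_of_nonneg_left hσ h2) h1 ?_ (by positivity)
          refine Finset.sum_nonneg fun h _ => ?_
          have := Yg_pos v hY h
          refine mul_nonneg (by positivity) (Finset.sum_nonneg fun s _ => ?_)
          refine mul_nonneg (Wt_nonneg v s) (Finset.prod_nonneg fun g _ => ?_)
          have := Zg_pos hv01 g
          simp only [hxq, hyq, hxa, hya]
          split_ifs <;> positivity
    _ ≤ _ := by
        have h1 : E1 ≤ Real.exp ((C1 + 4 + 144 * Real.exp (C1 + 4 + C4)) / p0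
            + (C1 + 4 + 144 * Real.exp (C1 + 4 + C4)) * Real.exp (-(v : ℝ) / 2)) := by
          refine Real.exp_le_exp.mpr (add_le_add ?_ ?_)
          · refine div_le_div_of_nonneg_right ?_ (by positivity)
            have := (Real.exp_pos (C1 + 4 + C4)).le
            linarith
          · refine mul_le_mul_of_nonneg_right ?_ (Real.exp_pos _).le
            have := (Real.exp_pos (C1 + 4 + C4)).le
            linarith
        have h2 : E1 ≤ Real.exp (C1 + 4) := by
          refine Real.exp_le_exp.mpr (add_le_add ?_ ?_)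
          · have : (1 : ℝ) ≤ p0 := by exact_mod_cast (by omega : 1 ≤ p0)
            exact div_le_self hC1 this
          · have h3 : Real.exp (-(v : ℝ) / 2) ≤ 1 := by
              rw [Real.exp_le_one_iff]
              have : (0 : ℝ) ≤ v := Nat.cast_nonneg v
              linarith
            linarith
        have h3 : (1 + η) * (R1 * (E0 * E1)) ≤ E0 * ((1 + η) * R1
            * Real.exp ((C1 + 4 + 144 * Real.exp (C1 + 4 + C4)) / p0
            + (C1 + 4 + 144 * Real.exp (C1 + 4 + C4)) * Real.exp (-(v : ℝ) / 2))) := by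
          calc (1 + η) * (R1 * (E0 * E1)) = E0 * ((1 + η) * R1 * E1) := by ring
            _ ≤ _ := mul_le_mul_of_nonneg_left
                (mul_le_mul_of_nonneg_left h1 (by positivity)) hE0p.le
        have h4 : (1 + 1 / η) * (Rw * A0 ^ 2 * (12 * κ0)
            * (E0 * E1 * (12 * κ0 * Real.exp (16 * |c| * rg v i + C4))))
            ≤ E0 * ((1 + 1 / η) * (Rw * A0 ^ 2 * (C1 + 4 + 144 * Real.exp (C1 + 4 + C4))
              * κ0 ^ 2 * Real.exp (16 * |c| * rg v i))) := by
          have h5 : E1 * Real.exp (16 * |c| * rg v i + C4)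
              ≤ Real.exp (C1 + 4 + C4) * Real.exp (16 * |c| * rg v i) := by
            calc E1 * Real.exp (16 * |c| * rg v i + C4)
                ≤ Real.exp (C1 + 4) * Real.exp (16 * |c| * rg v i + C4) :=
                  mul_le_mul_of_nonneg_right h2 (Real.exp_pos _).le
              _ = _ := by
                  rw [← Real.exp_add, ← Real.exp_add]
                  congr 1
                  ring
          have h6 : 144 * (E1 * Real.exp (16 * |c| * rg v i + C4))
              ≤ (C1 + 4 + 144 * Real.exp (C1 + 4 + C4)) * Real.exp (16 * |c| * rg v i) := by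
            have h7 := (Real.exp_pos (16 * |c| * rg v i)).le
            linarith [mul_nonneg (by linarith : 0 ≤ C1 + 4) h7]
          calc (1 + 1 / η) * (Rw * A0 ^ 2 * (12 * κ0)
              * (E0 * E1 * (12 * κ0 * Real.exp (16 * |c| * rg v i + C4))))
              = (E0 * ((1 + 1 / η) * (Rw * A0 ^ 2 * κ0 ^ 2)))
                * (144 * (E1 * Real.exp (16 * |c| * rg v i + C4))) := by ring
            _ ≤ (E0 * ((1 + 1 / η) * (Rw * A0 ^ 2 * κ0 ^ 2)))
                * ((C1 + 4 + 144 * Real.exp (C1 + 4 + C4)) * Real.exp (16 * |c| * rg v i)) :=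
                mul_le_mul_of_nonneg_left h6 (by positivity)
            _ = _ := by ring
        linarith

end Pool.Agent.Lib.J4.H87
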