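import Pool.Agent.Lib.MP_f9aece_nt_j4.Stmts
import Pool.Agent.Lib.MP_f9aece_nt_h5.D2

/-!
Module D of JointFour: the sum of `d(n)^2 / n`.
-/

set_option autoImplicit false

namespace Pool.Agent.Lib.J4

theorem d2Sum : D2Sum := by
  obtain ⟨C, hC, h⟩ := Pool.Agent.Lib.MP_f9aece_nt_h5.D2.sum_divisors_sq
  refine ⟨C, hC, fun N hN => ?_⟩
  have h1 := h N (by exact_mod_cast hN)
  rw [Nat.floor_natCast] at h1
  have h2 : Finset.Icc 1 N = Finset.Ioc 0 N := by
    ext n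
    simp only [Finset.mem_Icc, Finset.mem_Ioc]
    omega
  rw [h2]
  exact h1

end Pool.Agent.Lib.J4
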