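import Pool.Agent.Lib.MP_f9aece_nt_j4.Rough
import Pool.Agent.Lib.MP_f9aece_nt_j4.EnNorm
import Pool.Agent.Lib.MP_f9aece_nt_j4.Iw

/-!
Module P of JointFour: `EdgeInt`.
-/

set_option autoImplicit false

namespace Pool.Agent.Lib.J4

open MeasureTheory Set Filter Topology Complex
open scoped ComplexConjugate
open Pool.Agent.Lib.MP_f9aece_nt (DP pair BK K1 ev ev1 evh PP VV Smo expo EE mom)

namespace H87

lemma intw_bounds {w : ℝ → ℝ} {θ C : ℝ} (hθ : 0 < θ) (hw : Wgt w θ C) :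
    0 ≤ ∫ u, w u ∧ ∫ u, w u ≤ 2 := by
  refine ⟨integral_nonneg hw.nonneg, ?_⟩
  have h1 : ∀ u, w u ≤ (Icc (0 : ℝ) 2).indicator (fun _ => (1 : ℝ)) u := by
    intro u
    by_cases h : w u = 0
    · rw [h]
      exact Set.indicator_nonneg (fun _ _ => zero_le_one) u
    · have h2 := hw.supp u h
      rw [Set.indicator_of_mem (show u ∈ Icc (0 : ℝ) 2 from ⟨by linarith [h2.1], h2.2⟩)]
      exact hw.le_one u
  calc ∫ u, w u ≤ ∫ u, (Icc (0 : ℝ) 2).indicator (fun _ => (1 : ℝ)) u := by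
        refine integral_mono_of_nonneg (ae_of_all _ hw.nonneg) ?_ (ae_of_all _ h1)
        exact (integrable_indicator_iff measurableSet_Icc).mpr
          (by simp)
    _ = 2 := by
        rw [integral_indicator measurableSet_Icc]
        simp

/-- the mean value theorem for one polynomial -/
lemma mvt_self {w : ℝ → ℝ} {θ C C1 : ℝ} (hw : Wgt w θ C)
    (hM : ∀ T N1 N2 : ℝ, 1 ≤ T → 1 ≤ N2 → N2 ≤ N1 → ∀ P Q : DP,
    (∀ n, P.coeff n ≠ 0 → 1 ≤ n ∧ (n : ℝ) ≤ N1) → (∀ n, Q.coeff n ≠ 0 → 1 ≤ n ∧ (n : ℝ) ≤ N2) →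
    ‖(∫ t : ℝ, (w (t / T) : ℂ) * (ev t P * conj (ev t Q)))
        - ((T * (∫ u, w u) * BK K1 P Q : ℝ) : ℂ)‖
      ≤ C1 / T * (Real.sqrt (N1 * N2) + N2 ^ 2) * Real.sqrt (En P) * Real.sqrt (En Q))
    {T N : ℝ} (hT : 1 ≤ T) (hN : 1 ≤ N) {P : DP}
    (hP : ∀ n, P.coeff n ≠ 0 → 1 ≤ n ∧ (n : ℝ) ≤ N) :
    ∫ t : ℝ, w (t / T) * ‖ev t P‖ ^ 2 ≤ (T * (∫ u, w u) + C1 / T * (N + N ^ 2)) * En P := by
  have h1 := hM T N N hT hN le_rfl P P hP hP
  have hEn : 0 ≤ En P := by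
    rw [H24.En_eq24]
    exact Finset.sum_nonneg fun n _ => by positivity
  have h2 : (∫ t : ℝ, (w (t / T) : ℂ) * (ev t P * conj (ev t P)))
      = ((∫ t : ℝ, w (t / T) * ‖ev t P‖ ^ 2 : ℝ) : ℂ) := by
    rw [← integral_complex_ofReal]
    refine integral_congr_ae (ae_of_all _ fun t => ?_)
    simp only
    rw [Complex.mul_conj, Complex.normSq_eq_norm_sq]
    push_cast
    ring
  rw [h2, ← Complex.ofReal_sub, Complex.norm_real, Real.norm_eq_abs, ← sq,
    Real.sqrt_sq (by linarith), mul_assoc _ (Real.sqrt (En P)), Real.mul_self_sqrt hEn] at h1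
  have h3 := (abs_le.mp h1).2
  have h4 : T * (∫ u, w u) * BK K1 P P = T * (∫ u, w u) * En P := rfl
  rw [h4] at h3
  linarith

end H87

open H87

/-- support and size of the edge polynomial -/
lemma H87.Ce_supp {T : ℝ} (hT0 : 0 < T) {n : ℕ} (h : (Ce T).coeff n ≠ 0) :
    (1 ≤ n ∧ (n : ℝ) ≤ T * Real.exp 2) ∧ (Real.log T - 2 ≤ Real.log n ∧
      Real.log n ≤ Real.log T + 2) := by
  unfold Ce at h
  obtain ⟨⟨h1, h2⟩, h3⟩ := H24.DF_support h
  have h4 : (n : ℝ) ≤ T * Real.exp 2 :=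
    (Nat.le_floor_iff (by positivity)).mp h2
  have hn0 : (0 : ℝ) < n := by exact_mod_cast h1
  refine ⟨⟨h1, h4⟩, ?_, ?_⟩
  · by_contra h5
    push Not at h5
    apply h3
    simp only [cu]
    rw [Real.smoothTransition.one_of_one_le (by linarith),
      Real.smoothTransition.zero_of_nonpos (by linarith)]
    ring
  · have h6 := Real.log_le_log hn0 h4
    rwa [Real.log_mul hT0.ne' (Real.exp_pos _).ne', Real.log_exp] at h6

lemma H87.Ce_coeff_sq {T : ℝ} (n : ℕ) : (Ce T).coeff n ^ 2 ≤ dv n ^ 2 := by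
  unfold Ce
  rw [H24.coeff_DF]
  split_ifs with h
  · rw [mul_pow]
    refine mul_le_of_le_one_right (sq_nonneg _) ?_
    rw [sq_le_one_iff_abs_le_one, abs_le]
    simp only [cu]
    have a1 := Real.smoothTransition.nonneg ((Real.log T - 1 - Real.log n) / 1)
    have a2 := Real.smoothTransition.le_one ((Real.log T - 1 - Real.log n) / 1)
    have b1 := Real.smoothTransition.nonneg
      ((Real.log T - 1 - (2 * Real.log T - Real.log n)) / 1)
    have b2 := Real.smoothTransition.le_one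
      ((Real.log T - 1 - (2 * Real.log T - Real.log n)) / 1)
    constructor <;> linarith
  · rw [zero_pow two_ne_zero]
    exact sq_nonneg _

theorem edgeInt (hM : MVT) (hD : D2Sum) : EdgeInt := by
  intro w θ C hθ hθ1 hw
  obtain ⟨C1, hC1, hM⟩ := hM w θ C hθ hw
  obtain ⟨Cw, hCw, hwin⟩ := H6.window hD
  have hW := intw_bounds hθ hw
  refine ⟨(2 + C1 * (Real.exp 2 + Real.exp 2 ^ 2)) * (135 * Cw), Real.exp 2, by positivity,
    Real.one_le_exp (by norm_num), fun T hT => ?_⟩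
  have hT0 : 0 < T := lt_of_lt_of_le (Real.exp_pos _) hT
  have hT1 : 1 ≤ T := (Real.one_le_exp (by norm_num)).trans hT
  have hL2 : 2 ≤ Real.log T := (Real.le_log_iff_exp_le hT0).mpr hT
  have he1 : 1 ≤ Real.exp 2 := Real.one_le_exp (by norm_num)
  have hN : 1 ≤ T * Real.exp 2 := one_le_mul_of_one_le_of_one_le hT1 he1
  have h1 := mvt_self (P := Ce T) hw hM hT1 hN (fun n hn => (Ce_supp hT0 hn).1)
  have hEn : En (Ce T) ≤ 135 * Cw * Real.log T ^ 3 := by
    rw [H24.En_eq24]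
    have h2 : ∑ n ∈ (Ce T).coeff.support, (Ce T).coeff n ^ 2 / (n : ℝ)
        ≤ ∑ n ∈ (Ce T).coeff.support, H6.fk 0 n := by
      refine Finset.sum_le_sum fun n _ => ?_
      rw [H6.fk_zero_eq]
      exact div_le_div_of_nonneg_right (Ce_coeff_sq n) (Nat.cast_nonneg n)
    have h3 := hwin (Real.log T - 2) (Real.log T + 2) (by linarith) (by linarith)
      (Ce T).coeff.support (fun n hn => by
        have h4 := Ce_supp hT0 (Finsupp.mem_support_iff.mp hn)
        exact ⟨h4.1.1, h4.2.1, h4.2.2⟩)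
    have h4 : (1 + (Real.log T + 2)) ^ 3 ≤ (3 * Real.log T) ^ 3 :=
      pow_le_pow_left₀ (by linarith) (by linarith) 3
    calc _ ≤ Cw * (Real.log T + 2 - (Real.log T - 2) + 1) * (1 + (Real.log T + 2)) ^ 3 :=
          h2.trans h3
      _ = Cw * 5 * (1 + (Real.log T + 2)) ^ 3 := by ring
      _ ≤ Cw * 5 * (3 * Real.log T) ^ 3 := mul_le_mul_of_nonneg_left h4 (by positivity)
      _ = _ := by ring
  have h5 : T * (∫ u, w u) + C1 / T * (T * Real.exp 2 + (T * Real.exp 2) ^ 2)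
      ≤ (2 + C1 * (Real.exp 2 + Real.exp 2 ^ 2)) * T := by
    have h6 : C1 / T * (T * Real.exp 2 + (T * Real.exp 2) ^ 2)
        = C1 * Real.exp 2 + C1 * Real.exp 2 ^ 2 * T := by
      field_simp
    rw [h6]
    have h7 : T * (∫ u, w u) ≤ T * 2 := mul_le_mul_of_nonneg_left hW.2 hT0.le
    have h8 : C1 * Real.exp 2 ≤ C1 * Real.exp 2 * T :=
      le_mul_of_one_le_right (by positivity) hT1
    nlinarith
  have h9 : 0 ≤ T * (∫ u, w u) + C1 / T * (T * Real.exp 2 + (T * Real.exp 2) ^ 2) := by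
    have := hW.1
    positivity
  calc _ ≤ _ := h1
    _ ≤ ((2 + C1 * (Real.exp 2 + Real.exp 2 ^ 2)) * T) * (135 * Cw * Real.log T ^ 3) :=
        mul_le_mul h5 hEn (by
          rw [H24.En_eq24]
          exact Finset.sum_nonneg fun n _ => by positivity) (h9.trans h5)
    _ = _ := by ring

end Pool.Agent.Lib.J4
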