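import Pool.Agent.Lib.MP_f9aece_nt_h87.Core2

/-!
Module J of JointFour: `MidSum`.
-/

set_option autoImplicit false

namespace Pool.Agent.Lib.J4

open Pool.Agent.Lib.MP_f9aece_nt (DP pair BK K1 ev ev1 evh PP VV Smo expo EE mom VV_nonneg
  cone_PP_pow)

open H87

lemma H87.SU_prop {v p0 : ℕ} {Y : ℝ} (hY : 0 < Y) (hp0 : 1000 ≤ p0) {i J : ℕ} :
    ∀ p ∈ SU v p0 Y i J, p.Prime ∧ 10 ≤ p ∧ Real.log p ≤ max (Yg v Y i) 1 := by
  intro p hp
  obtain ⟨g, hg, hpg⟩ := mem_SU hp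
  have h1 := mem_Sg hpg
  refine ⟨h1.1, by have := h1.2.1; omega, ?_⟩
  exact (h1.2.2.trans (Yg_anti v hY (Finset.mem_Ico.mp hg).1)).trans (le_max_left _ _)

theorem midSum (hFW : FW) (hR2 : Rough2) (hR3 : Rough3) (hE : BeExpo) (hP : BePow)
    (hEA : BeExpoAbs) (hPA : BePowAbs) (hV : VVSg) (hD : SgDisj) : MidSum := by
  classical
  obtain ⟨C, v0, hC, hcore⟩ := core hFW hE hP hEA hPA hV hD
  obtain ⟨C2, hC2, hR2⟩ := hR2
  obtain ⟨C3, hC3, hR3⟩ := hR3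
  refine ⟨108 * C2 * Real.exp (C + C) + 864 * C3 * C, v0, 1000, by positivity, ?_⟩
  intro v p0 hv hp0 Y L i J hY hYL hiJ hJ c A0 lm X1 X2 f hc hA0 hlmY hlm hf0 hf1 hf2 hf3 hX12
    hX20 hX2L N hN
  have hY0 : 0 < Y := by linarith
  have hYi := Yg_pos v hY0 i
  have hYiY : Yg v Y i ≤ Y := by
    have h1 := Yg_anti v hY0 (Nat.zero_le i)
    have h2 : Yg v Y 0 = Y := by simp [Yg]
    rwa [h2] at h1
  set Y' := max (Yg v Y i) 1 with hY'
  have hY'1 : 1 ≤ Y' := le_max_right _ _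
  have hY'2 : Y' ≤ Yg v Y i + 1 := max_le (by linarith) (by linarith)
  have hY'L : Y' ≤ L := max_le (by linarith) (by linarith)
  have hL1 : 1 ≤ L := by linarith
  have hSU := H87.SU_prop (v := v) hY0 hp0 (i := i) (J := J)
  set Z := X2 - X1 + Yg v Y i + 1 with hZ
  have hZ0 : 0 < Z := by linarith
  have hcube : (1 + X2 + Y') ^ 3 ≤ 27 * (1 + L) ^ 3 := by
    have h1 : 1 + X2 + Y' ≤ 3 * (1 + L) := by linarith
    calc (1 + X2 + Y') ^ 3 ≤ (3 * (1 + L)) ^ 3 := pow_le_pow_left₀ (by linarith) h1 3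
      _ = _ := by ring
  have hcube0 : 0 ≤ (1 + X2 + Y') ^ 3 := by
    have : 0 ≤ 1 + X2 + Y' := by linarith
    positivity
  have hL3 : 0 ≤ (1 + L) ^ 3 := by
    have : 0 ≤ 1 + L := by linarith
    positivity
  have hDS : 0 < DS (SU v p0 Y i J) := DS_pos fun p hp => (hSU p hp).1.two_le
  have h1 := hcore v p0 hv hp0 Y i J hY0 c A0 lm X1 X2 1 f hc hA0 hlm one_pos hf0 hf1 hf2 hf3 N hN
    (A0 ^ 2 * (C2 * (X2 - X1 + Y' + 1) * (1 + X2 + Y') ^ 3))
    (C3 * (X2 - X1 + 1 / (1 / (6 * Yg v Y i)) + Y' + 1) * (1 + X2 + Y') ^ 3)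
    (fun s hs => by
      have h2 := hR2 (SU v p0 Y i J) Y' X1 X2 hSU hY'1 hX12 hX20
        (s.filter fun r : ℕ => X1 ≤ Real.log r ∧ Real.log r ≤ X2)
        (fun r hr => by
          rw [Finset.mem_filter] at hr
          exact ⟨hs r hr.1, hr.2.1, hr.2.2⟩)
      have h3 : ∑ r ∈ s, dv r ^ 2 * f (Real.log r) ^ 2 / (r : ℝ)
          ≤ A0 ^ 2 * ∑ r ∈ s.filter (fun r : ℕ => X1 ≤ Real.log r ∧ Real.log r ≤ X2),
            dv r ^ 2 / (r : ℝ) := by
        rw [Finset.sum_filter, Finset.mul_sum]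
        refine Finset.sum_le_sum fun r _ => ?_
        split_ifs with h4
        · have h5 : f (Real.log r) ^ 2 ≤ A0 ^ 2 := by
            rw [← sq_abs]
            exact pow_le_pow_left₀ (abs_nonneg _) (hf0 _) 2
          have h6 : 0 ≤ dv r ^ 2 / (r : ℝ) := by positivity
          calc dv r ^ 2 * f (Real.log r) ^ 2 / (r : ℝ) = f (Real.log r) ^ 2 * (dv r ^ 2 / r) := by
                ring
            _ ≤ _ := mul_le_mul_of_nonneg_right h5 h6
        · rw [not_and_or, not_le, not_le] at h4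
          have h5 : f (Real.log r) = 0 := by
            rcases h4 with h4 | h4
            · exact hf3 _ h4.le
            · exact hf2 _ h4.le
          rw [h5]
          simp
      calc _ ≤ (A0 ^ 2 * ∑ r ∈ s.filter (fun r : ℕ => X1 ≤ Real.log r ∧ Real.log r ≤ X2),
            dv r ^ 2 / (r : ℝ)) * DS (SU v p0 Y i J) := mul_le_mul_of_nonneg_right h3 hDS.le
        _ = A0 ^ 2 * ((∑ r ∈ s.filter (fun r : ℕ => X1 ≤ Real.log r ∧ Real.log r ≤ X2),
            dv r ^ 2 / (r : ℝ)) * DS (SU v p0 Y i J)) := by ring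
        _ ≤ _ := mul_le_mul_of_nonneg_left h2 (by positivity))
    (fun s hs => hR3 (SU v p0 Y i J) Y' X1 X2 (1 / (6 * Yg v Y i)) hSU hY'1 hX12 hX20
      (by positivity) s hs)
  have e1 : 1 / (1 / (6 * Yg v Y i)) = 6 * Yg v Y i := by rw [one_div_one_div]
  rw [e1] at h1
  refine h1.trans ?_
  set κ0 : ℝ := if i < J then Yg v Y i / lm else 0 with hκ0
  have hκ1 : κ0 ^ 2 ≤ 1 := by
    have h2 : 0 ≤ κ0 := by
      rw [hκ0]
      split_ifs <;> positivity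
    have h3 : κ0 ≤ 1 := by
      rw [hκ0]
      split_ifs with h4
      · exact (div_le_one hlm).mpr (hlmY h4)
      · norm_num
    exact pow_le_one₀ h2 h3
  have hR1b : A0 ^ 2 * (C2 * (X2 - X1 + Y' + 1) * (1 + X2 + Y') ^ 3)
      ≤ A0 ^ 2 * Z * (1 + L) ^ 3 * (54 * C2) := by
    have h2 : C2 * (X2 - X1 + Y' + 1) ≤ C2 * (2 * Z) := mul_le_mul_of_nonneg_left (by linarith) hC2
    have h3 : C2 * (X2 - X1 + Y' + 1) * (1 + X2 + Y') ^ 3 ≤ C2 * (2 * Z) * (27 * (1 + L) ^ 3) :=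
      mul_le_mul h2 hcube hcube0 (by positivity)
    calc _ ≤ A0 ^ 2 * (C2 * (2 * Z) * (27 * (1 + L) ^ 3)) :=
          mul_le_mul_of_nonneg_left h3 (by positivity)
      _ = _ := by ring
  have hRwb : C3 * (X2 - X1 + 6 * Yg v Y i + Y' + 1) * (1 + X2 + Y') ^ 3
      ≤ Z * (1 + L) ^ 3 * (216 * C3) := by
    have h2 : C3 * (X2 - X1 + 6 * Yg v Y i + Y' + 1) ≤ C3 * (8 * Z) :=
      mul_le_mul_of_nonneg_left (by linarith) hC3
    have h3 : C3 * (X2 - X1 + 6 * Yg v Y i + Y' + 1) * (1 + X2 + Y') ^ 3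
        ≤ C3 * (8 * Z) * (27 * (1 + L) ^ 3) := mul_le_mul h2 hcube hcube0 (by positivity)
    calc _ ≤ C3 * (8 * Z) * (27 * (1 + L) ^ 3) := h3
      _ = _ := by ring
  have hexp1 : Real.exp (C / p0 + C * Real.exp (-(v : ℝ) / 2)) ≤ Real.exp (C + C) := by
    refine Real.exp_le_exp.mpr (add_le_add ?_ ?_)
    · exact div_le_self hC (by exact_mod_cast (by omega : 1 ≤ p0))
    · have h3 : Real.exp (-(v : ℝ) / 2) ≤ 1 := by
        rw [Real.exp_le_one_iff]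
        have : (0 : ℝ) ≤ v := Nat.cast_nonneg v
        linarith
      exact mul_le_of_le_one_right hC h3
  have hcr : 0 ≤ |c| * rg v i := mul_nonneg (abs_nonneg c) (Nat.cast_nonneg _)
  have hexp2 : (1 : ℝ) ≤ Real.exp (32 * |c| * rg v i) := by
    exact Real.one_le_exp (by positivity)
  have hexp3 : Real.exp (16 * |c| * rg v i) ≤ Real.exp (32 * |c| * rg v i) := by
    refine Real.exp_le_exp.mpr ?_
    linarith
  rw [Real.exp_add ((c ^ 2 + 4 * c) * Vs v p0 Y i J)]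
  set E0 := Real.exp ((c ^ 2 + 4 * c) * Vs v p0 Y i J) with hE0
  have hE0p : 0 < E0 := Real.exp_pos _
  set E2 := Real.exp (32 * |c| * rg v i) with hE2
  have hB : 0 ≤ A0 ^ 2 * Z * (1 + L) ^ 3 := by positivity
  have t1 : (1 + 1) * (A0 ^ 2 * (C2 * (X2 - X1 + Y' + 1) * (1 + X2 + Y') ^ 3))
      * Real.exp (C / p0 + C * Real.exp (-(v : ℝ) / 2))
      ≤ A0 ^ 2 * Z * (1 + L) ^ 3 * (108 * C2 * Real.exp (C + C)) * E2 := by
    calc (1 + 1) * (A0 ^ 2 * (C2 * (X2 - X1 + Y' + 1) * (1 + X2 + Y') ^ 3))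
        * Real.exp (C / p0 + C * Real.exp (-(v : ℝ) / 2))
        ≤ (1 + 1) * (A0 ^ 2 * Z * (1 + L) ^ 3 * (54 * C2)) * Real.exp (C + C) :=
          mul_le_mul (mul_le_mul_of_nonneg_left hR1b (by norm_num)) hexp1 (Real.exp_pos _).le
            (by positivity)
      _ = A0 ^ 2 * Z * (1 + L) ^ 3 * (108 * C2 * Real.exp (C + C)) * 1 := by ring
      _ ≤ _ := mul_le_mul_of_nonneg_left hexp2 (by positivity)
  have t2 : (1 + 1 / 1) * (C3 * (X2 - X1 + 6 * Yg v Y i + Y' + 1) * (1 + X2 + Y') ^ 3 * A0 ^ 2 * C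
      * κ0 ^ 2 * Real.exp (16 * |c| * rg v i))
      ≤ A0 ^ 2 * Z * (1 + L) ^ 3 * (864 * C3 * C) * E2 := by
    have h2 : C3 * (X2 - X1 + 6 * Yg v Y i + Y' + 1) * (1 + X2 + Y') ^ 3 * A0 ^ 2 * C
        * κ0 ^ 2 ≤ Z * (1 + L) ^ 3 * (216 * C3) * A0 ^ 2 * C * 1 := by
      refine mul_le_mul ?_ hκ1 (by positivity) (by positivity)
      exact mul_le_mul_of_nonneg_right (mul_le_mul_of_nonneg_right hRwb (by positivity)) hC
    calc _ ≤ (1 + 1 / 1) * ((Z * (1 + L) ^ 3 * (216 * C3) * A0 ^ 2 * C * 1) * E2) := by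
          refine mul_le_mul_of_nonneg_left ?_ (by norm_num)
          exact mul_le_mul h2 hexp3 (Real.exp_pos _).le (by positivity)
      _ = A0 ^ 2 * Z * (1 + L) ^ 3 * (432 * C3 * C) * E2 := by ring
      _ ≤ _ := by
          refine mul_le_mul_of_nonneg_right (mul_le_mul_of_nonneg_left ?_ hB) (Real.exp_pos _).le
          linarith [mul_nonneg hC3 hC]
  calc _ ≤ E0 * (A0 ^ 2 * Z * (1 + L) ^ 3 * (108 * C2 * Real.exp (C + C)) * E2
        + A0 ^ 2 * Z * (1 + L) ^ 3 * (864 * C3 * C) * E2) :=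
        mul_le_mul_of_nonneg_left (add_le_add t1 t2) hE0p.le
    _ = _ := by ring

end Pool.Agent.Lib.J4
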